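import Pool.Agent.Q202.KT.Inf

/-!
# The even Chern character of `K₀(R[Γ])` on classes inflated from a quotient

Let `Γ` be a group, for example a torsion-free one, `R` a ring, for example `ℤ`, and `π : Γ → Q` a
homomorphism of groups. The components of the integral Chern character of `K₀(R[Γ])` at the
conjugacy classes `C` of `Γ` pair with the traces of `R[Γ]` which are concentrated on `C` and with the
group cocycles of the centralisers. If `Γ` is torsion-free and `K₀(ℤ[Γ])` is generated by `ℤ[Γ]`, then
they vanish on `K₀(ℤ[Γ])` in the degrees `≥ 2`. We consider the cocycles of positive degree which are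
inflated from `Q`, at the classes `C` with image of finite order in `Q`, with an arbitrary trace of
`R[Γ]`; there is no assumption on the torsion of `Γ` and `Q`.

The proof applies the coaction `R[Γ] → (R[Γ])[Q]`, `γ ↦ γ π(γ)`, and the theorem on the group ring of
`Q` with coefficients in the noncommutative ring `R[Γ]` (library `Pool.Agent.W647`). In the same way we
treat the rings graded by `Q`, for example crossed products.
-/

set_option autoImplicit false

namespace Pool.Agent.Results.MP_16fe43_al.EvenCharacterInflated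

open Pool.Agent.W647.HX1 Pool.Agent.Q202.KT

universe u1 u2 u3 u4 u5 u6

/-- `(2 k)! / k!` times `x` is divisible by all `N ≥ 1`, and `x = 0` if `M` is torsion-free and has no
nonzero elements divisible by all `N ≥ 1`. -/
def Vanishes {M : Type u2} [AddCommGroup M] (k : ℕ) (x : M) : Prop :=
  (∀ N : ℕ, N ≠ 0 → ∃ y : M, (2 * k).descFactorial k • x = N • y) ∧
  ((∀ (n : ℕ) (y : M), n ≠ 0 → n • y = 0 → y = 0) →
    (∀ z : M, (∀ N : ℕ, N ≠ 0 → ∃ y, z = N • y) → z = 0) → x = 0)

lemma vanishes_of {M : Type u2} [AddCommGroup M] {k : ℕ} {x : M}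
    (h : ∀ N : ℕ, N ≠ 0 → ∃ y : M, (2 * k).descFactorial k • x = N • y) : Vanishes k x :=
  ⟨h, fun h1 h2 => h1 _ x (by
    rw [Ne, Nat.descFactorial_eq_zero_iff_lt]
    omega) (h2 _ h)⟩

/-- Let `g ∈ Q` be an element of finite order, let `t y` conjugate `y` to `g` for all conjugates `y`
of `g`, and let `c` be an `A`-valued class cocycle of `Q` for `g` of degree `2 k ≥ 2`.

(1) Let `π : Γ → Q` be a homomorphism, `T` a biadditive map on `R[Γ] × A` with
`T (x y, a) = T (y x, a)`, `e` an idempotent matrix over `R[Γ]`, `e_q` the part of `e` over `q ∈ Q`,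
and `τ = ∑ T (tr (e_{q 0} e_{q 1} ⋯ e_{q (2 k)}), c (t, t q₀, …, t q₀ ⋯ q_{2 k - 1}))`, the sum over
all `q ∈ Q ^ (2 k + 1)` whose product `y` is conjugate to `g`, `t = t y`. Then `(2 k)! / k! τ` is
divisible by all `N ≥ 1`, and `τ = 0` if `M` is torsion-free without divisible elements, for example
`M = ℤ`.

(2) The same for the rings `S` graded by `Q`, the traces `T` of `S`, and the homogeneous components of
idempotent matrices over `S`. -/
theorem result (Q : Type u1) [Group Q] (A : Type u2) [AddCommGroup A] (M : Type u3)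
    [AddCommGroup M] (d : Type u4) [Fintype d] [DecidableEq d] (g : Q) (hg : IsOfFinOrder g)
    (t : Q → Q) (ht : ∀ y, IsConj y g → t y * y * (t y)⁻¹ = g) (k : ℕ) (hk : 1 ≤ k)
    (c : (Fin (2 * k + 1) → Q) → A) (hc : IsClassCoc g c) :
    (∀ (Γ : Type u5) [Group Γ] (π : Γ →* Q) (R : Type u6) [Ring R]
      (T : MonoidAlgebra R Γ →+ A →+ M), (∀ x y, T (x * y) = T (y * x)) →
      ∀ e : Matrix d d (MonoidAlgebra R Γ), e * e = e →
        Vanishes k (evTau T g t c fun q => e.map (part π q))) ∧
    (∀ (S : Type u5) [Ring S] [DecidableEq Q] (𝒮 : Q → AddSubgroup S) [DirectSum.Decomposition 𝒮],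
      (1 : S) ∈ 𝒮 1 → (∀ q r : Q, ∀ x ∈ 𝒮 q, ∀ y ∈ 𝒮 r, x * y ∈ 𝒮 (q * r)) →
      ∀ T : S →+ A →+ M, (∀ x y, T (x * y) = T (y * x)) →
      ∀ e : Matrix d d S, e * e = e → Vanishes k (evTau T g t c (gc 𝒮 e))) := by
  refine ⟨?_, ?_⟩
  · intro Γ _ π R _ T hT e he
    exact vanishes_of fun N hN => even_fin π T hT hg ht (by omega) hc e he N hN
  · intro S _ _ 𝒮 _ h1 hmul T hT e he
    exact vanishes_of fun N hN => graded_even 𝒮 h1 hmul T hT hg ht (by omega) hc e he N hN

end Pool.Agent.Results.MP_16fe43_al.EvenCharacterInflated
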