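import Pool.Agent.Q105.FJ.Hol

/-!
# Groups of automorphisms of free products which preserve a chain of free factors

`Hol N T` is the semidirect product of a group `N` with a group `T` of automorphisms of `N`.
-/

set_option autoImplicit false

namespace Pool.Agent.Results.MP_16fe43_al.FlagStabilizers

open Monoid Pool.Agent.Y462.SS Pool.Agent.Q152.WP Pool.Agent.Q105.FJ

/-- the group is torsion-free -/
def TorsionFree (G : Type) [Group G] : Prop := ∀ g : G, IsOfFinOrder g → g = 1

/-- The automorphism `α` of the free product of `N` and `P` acts on `N` by an element of `T` and maps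
`P` by `p ↦ w β(p) w⁻¹`, with `w` in `N` and `β` in `B`. -/
def ActsA {N P : Type} [Group N] [Group P] (T : Subgroup (MulAut N)) (B : Subgroup (MulAut P))
    (α : MulAut (Coprod N P)) : Prop :=
  ∃ a ∈ T, ∃ β ∈ B, ∃ w : N, (∀ x, α (Coprod.inl x) = Coprod.inl (a x)) ∧
    ∀ p, α (Coprod.inr p) = Coprod.inl w * Coprod.inr (β p) * (Coprod.inl w)⁻¹

/-- The automorphism `α` of the free product of `N` and the infinite cyclic group generated by `x`
acts on `N` by an element of `T` and maps `x` to `u x w`, with `u` and `w` in `N`. -/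
def ActsPos {N : Type} [Group N] (T : Subgroup (MulAut N))
    (α : MulAut (Coprod N (Multiplicative ℤ))) : Prop :=
  ∃ a ∈ T, ∃ u w : N, (∀ x, α (Coprod.inl x) = Coprod.inl (a x)) ∧
    α (gx N) = Coprod.inl u * gx N * Coprod.inl w

/-- The same with `x ↦ u x w` or `x ↦ u x⁻¹ w`. -/
def ActsB {N : Type} [Group N] (T : Subgroup (MulAut N))
    (α : MulAut (Coprod N (Multiplicative ℤ))) : Prop :=
  ∃ a ∈ T, ∃ u w : N, (∀ x, α (Coprod.inl x) = Coprod.inl (a x)) ∧
    (α (gx N) = Coprod.inl u * gx N * Coprod.inl w ∨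
      α (gx N) = Coprod.inl u * (gx N)⁻¹ * Coprod.inl w)

/-- The group `S` and its semidirect product with `N` are in `C`. -/
def Both (C : ∀ (G : Type) [Group G], Prop) {N : Type} [Group N] (S : Subgroup (MulAut N)) : Prop :=
  C S ∧ C (Hol N S)

/-- The semidirect product of `N` with `T` is torsion-free. -/
def HolTF {N : Type} [Group N] (T : Subgroup (MulAut N)) : Prop := TorsionFree (Hol N T)

/-- Groups `S` of automorphisms which preserve `N` and map `P` to conjugates. -/
def FactorStep (C : ∀ (G : Type) [Group G], Prop) : Prop :=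
  ∀ (N P : Type) [Group N] [Group P] (T : Subgroup (MulAut N)) (B : Subgroup (MulAut P))
    (S : Subgroup (MulAut (Coprod N P))), (∀ α ∈ S, ActsA T B α) →
      (C (Hol N T) → C (Hol P B) → Both C S) ∧ (HolTF T → HolTF B → HolTF S)

/-- Groups `S` of automorphisms which preserve `N` and map the generator `x` of an infinite cyclic
factor to `u x w` or `u x⁻¹ w`. -/
def CyclicStep (C : ∀ (G : Type) [Group G], Prop) : Prop :=
  ∀ (N : Type) [Group N] (T : Subgroup (MulAut N))
    (S : Subgroup (MulAut (Coprod N (Multiplicative ℤ)))),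
      ((∀ α ∈ S, ActsB T α) → C (Hol N T) → Both C S) ∧
        ((∀ α ∈ S, ActsPos T α) → HolTF T → HolTF S)

/-- **Stabilizers of chains of free factors.** -/
theorem result (C : ∀ (G : Type) [Group G], Prop) (hC : Closed C) (hE : ExtClosed C) :
    FactorStep C ∧ CyclicStep C := by
  refine ⟨fun N P _ _ T B S hS => ?_, fun N _ T S => ⟨fun hS h1 => ?_, fun hS h1 => ?_⟩⟩
  · have hS' : ∀ α ∈ S, ∃ t : Hol N T × B, RepA α t := by
      intro α hα
      obtain ⟨a, ha, β, hβ, w, h3, h4⟩ := hS α hα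
      refine ⟨(⟨w⁻¹, ⟨a, ha⟩⟩, ⟨β, hβ⟩), h3, fun p => ?_⟩
      change _ = (Coprod.inl w⁻¹)⁻¹ * Coprod.inr (β p) * Coprod.inl w⁻¹
      rw [h4, map_inv, inv_inv]
    exact ⟨fun h1 h2 => holA hC hE S hS' h1 h2, holA_tf S hS'⟩
  · refine holB hC hE S (fun α hα => ?_) h1
    obtain ⟨a, ha, u, w, h3, h4⟩ := hS α hα
    exact ⟨⟨a, ha⟩, u, w, h3, h4⟩
  · refine holB_tf S (fun α hα => ?_) h1
    obtain ⟨a, ha, u, w, h3, h4⟩ := hS α hα
    exact ⟨⟨a, ha⟩, u, w, h3, h4⟩

end Pool.Agent.Results.MP_16fe43_al.FlagStabilizers
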