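import Pool.Agent.Q91.VR.Class
import Pool.Agent.Q91.PP.Over
import Pool.Agent.Y84.PK.O

/-!
# `K₁(K[G])` and cyclic cohomology of odd degree, for groups of automorphisms of algebras and of
# linear groups

Let `G` be a torsion-free group. If `Wh(G) = 0`, then for every invertible matrix `u` over `ℤ[G]`
there is `γ ∈ G` such that all cycles `(Ω, δ, T)` of odd dimension `2 n + 1` over `ℚ[G]` in the sense
of Connes take the same value on `u` and on `γ`:
`T (v δu (δv δu) ^ n) = T (γ⁻¹ δγ (δγ⁻¹ δγ) ^ n)`, `v = u⁻¹`.  We prove this, for all invertible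
matrices over `K[G]`, `K` any field of characteristic zero, and the cycles with values in a finitely
generated module over a finitely generated subring, for all torsion-free groups of automorphisms of
a finitely generated linear group (for example of a free group `F_n`) or of a finitely generated
commutative algebra over a field of characteristic zero, and all torsion-free groups whose finitely
generated subgroups are virtually residually finite `p`-groups for infinitely many primes `p`.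
-/

set_option autoImplicit false

namespace Pool.Agent.Results.MP_16fe43_al.OddCyclesAutomorphisms

open Pool.Agent.Q91.VR

universe u1 u2 u3 u4 u5

/-- `(Ω, δ, T)` is a cycle of dimension `N` with values in the vector space `M`: `Ω` is a graded
algebra with homogeneous components `𝒜 i`, `δ` is a differential of degree one, and `T` is a
closed graded trace which vanishes outside degree `N`. -/
structure IsCycle {K : Type u1} [Field K] {Ω : Type u4} [Ring Ω] [Algebra K Ω] {M : Type u5}
    [AddCommGroup M] [Module K M] (N : ℕ) (𝒜 : ℕ → Submodule K Ω) [GradedAlgebra 𝒜]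
    (δ : Ω →ₗ[K] Ω) (T : Ω →ₗ[K] M) : Prop where
  deg : ∀ i, ∀ x ∈ 𝒜 i, δ x ∈ 𝒜 (i + 1)
  sq : ∀ x, δ (δ x) = 0
  leibniz : ∀ i, ∀ x ∈ 𝒜 i, ∀ y, δ (x * y) = δ x * y + (-1) ^ i * (x * δ y)
  closed : ∀ x, T (δ x) = 0
  trace : ∀ i j, ∀ x ∈ 𝒜 i, ∀ y ∈ 𝒜 j, T (x * y) = T ((-1) ^ (i * j) * (y * x))
  dim : ∀ i, i ≠ N → ∀ x ∈ 𝒜 i, T x = 0

/-- The value of the cycle on the group elements `a`, `b₁`, …, `b_r`. -/
noncomputable def value {K : Type u1} [Field K] {G : Type u2} [Group G] {Ω : Type u4} [Ring Ω]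
    [Algebra K Ω] {M : Type u5} [AddCommGroup M] [Module K M] (δ : Ω →ₗ[K] Ω) (T : Ω →ₗ[K] M)
    (ρ : MonoidAlgebra K G →ₐ[K] Ω) (a : G) (l : List G) : M :=
  T (ρ (MonoidAlgebra.single a 1) * (l.map fun b => δ (ρ (MonoidAlgebra.single b 1))).prod)

/-- The subgroup generated by the supports of the entries of `u` and `v`. -/
def supp {K : Type u1} [Field K] {G : Type u2} [Group G] {d : Type u3}
    (u v : Matrix d d (MonoidAlgebra K G)) : Subgroup G :=
  Subgroup.closure {g | ∃ i j, (u i j).coeff g ≠ 0 ∨ (v i j).coeff g ≠ 0}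

/-- The value `T (v δu (δv δu) ^ n)` of the cycle on the matrix `u` with inverse `v`. -/
noncomputable def onMat {K : Type u1} [Field K] {G : Type u2} [Group G] {d : Type u3} [Fintype d]
    [DecidableEq d] {Ω : Type u4} [Ring Ω] [Algebra K Ω] {M : Type u5} [AddCommGroup M] [Module K M]
    (δ : Ω →ₗ[K] Ω) (T : Ω →ₗ[K] M) (ρ : MonoidAlgebra K G →ₐ[K] Ω) (n : ℕ)
    (u v : Matrix d d (MonoidAlgebra K G)) : M :=
  T (v.map ρ * (u.map ρ).map δ * ((v.map ρ).map δ * (u.map ρ).map δ) ^ n).trace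

/-- The value `T (γ⁻¹ δγ (δγ⁻¹ δγ) ^ n)` of the cycle on the group element `γ`. -/
noncomputable def onElt {K : Type u1} [Field K] {G : Type u2} [Group G] {Ω : Type u4} [Ring Ω]
    [Algebra K Ω] {M : Type u5} [AddCommGroup M] [Module K M] (δ : Ω →ₗ[K] Ω) (T : Ω →ₗ[K] M)
    (ρ : MonoidAlgebra K G →ₐ[K] Ω) (n : ℕ) (γ : G) : M :=
  T (ρ (MonoidAlgebra.single γ⁻¹ 1) * δ (ρ (MonoidAlgebra.single γ 1)) *
    (δ (ρ (MonoidAlgebra.single γ⁻¹ 1)) * δ (ρ (MonoidAlgebra.single γ 1))) ^ n)

/-- `K` is a field of characteristic zero, `G` a torsion-free group with the property `Covered G`,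
`u` an invertible matrix over `K[G]` with inverse `v`. There is `γ ∈ G` such that
`T (v δu (δv δu) ^ n) = T (γ⁻¹ δγ (δγ⁻¹ δγ) ^ n)` for all `n ≥ 0` and all cycles `(Ω, δ, T)` over
`K[G]` of dimension `2 n + 1` whose values on the subgroup generated by the supports of `u` and `v`
lie in the module generated by a finite set `F` over the subring generated by a finite set `s`. -/
theorem result (K : Type u1) [Field K] [CharZero K] (G : Type u2) [Group G]
    (htf : ∀ g : G, ∀ m : ℕ, 0 < m → g ^ m = 1 → g = 1) (hG : Covered G) (d : Type u3)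
    [Fintype d] [DecidableEq d] (u v : Matrix d d (MonoidAlgebra K G)) (huv : u * v = 1)
    (hvu : v * u = 1) : ∃ γ : G,
    ∀ (Ω : Type u4) [Ring Ω] [Algebra K Ω] (𝒜 : ℕ → Submodule K Ω) [GradedAlgebra 𝒜]
      (M : Type u5) [AddCommGroup M] [Module K M] (δ : Ω →ₗ[K] Ω) (T : Ω →ₗ[K] M) (n : ℕ),
      IsCycle (2 * n + 1) 𝒜 δ T → ∀ ρ : MonoidAlgebra K G →ₐ[K] Ω, (∀ a, ρ a ∈ 𝒜 0) →
      ∀ (s : Finset K) (F : Finset M),
      (∀ (a : supp u v) (l : List (supp u v)), l.length = 2 * n + 1 →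
        value δ T ρ a (l.map Subtype.val) ∈
          Submodule.span (Algebra.adjoin ℤ (s : Set K)) (F : Set M)) →
      onMat δ T ρ n u v = onElt δ T ρ n γ := by
  classical
  have hFG : (supp u v).FG := by
    refine ⟨Finset.univ.biUnion fun i => Finset.univ.biUnion fun j =>
      (u i j).coeff.support ∪ (v i j).coeff.support, ?_⟩
    unfold supp
    congr 1
    ext g
    simp [Finsupp.mem_support_iff]
  have hHu : ∀ i j g, (u i j).coeff g ≠ 0 → g ∈ supp u v := fun i j g hg =>
    Subgroup.subset_closure ⟨i, j, Or.inl hg⟩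
  have hHv : ∀ i j g, (v i j).coeff g ≠ 0 → g ∈ supp u v := fun i j g hg =>
    Subgroup.subset_closure ⟨i, j, Or.inr hg⟩
  have hinf : ∀ g : supp u v, g ≠ 1 →
      {p : ℕ | p.Prime ∧ ∀ j, 1 ≤ j → ¬ IsConj g (g ^ p ^ j)}.Infinite := by
    intro g hg
    refine (hG.good htf _ hFG).mono ?_
    rintro p ⟨hp, -, hdiv⟩
    refine ⟨hp, fun j hj hconj => ?_⟩
    obtain ⟨k, hk⟩ := hdiv g hg
    obtain ⟨x, hx⟩ := Pool.Agent.Q91.PP.divisible_of_conj hj hconj k
    exact hk x hx
  obtain ⟨γ, hγ⟩ := Pool.Agent.Y84.PK.all_group.{u1, u2, u3, u4, u5} u v huv hvu (supp u v) hFG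
    hHu hHv (fun g hg => Or.inl (hinf g hg))
  refine ⟨(γ : G), ?_⟩
  intro Ω _ _ 𝒜 _ M _ _ δ T n hT ρ hρ s F hval
  have hmap : ∀ (a : supp u v) (l : List (supp u v)),
      value δ T ρ a (l.map Subtype.val) = T (ρ (MonoidAlgebra.single (a : G) 1) *
        (l.map fun b : supp u v => δ (ρ (MonoidAlgebra.single (b : G) 1))).prod) := by
    intro a l
    unfold value
    rw [List.map_map]
    rfl
  simp only [hmap] at hval
  exact hγ Ω 𝒜 M δ T n ⟨hT.deg, hT.sq, hT.leibniz, hT.closed, hT.trace, hT.dim⟩ ρ hρ s F hval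
    (fun g hg => Or.inl (hinf g hg))

end Pool.Agent.Results.MP_16fe43_al.OddCyclesAutomorphisms
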