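import Pool.Agent.Q105.FJ.OneSide

/-!
# Adjoining solutions of equations to groups of the Farrell–Jones class

`Closed C` (`Pool.Agent.Y462.SS.Base`): the class `C` of groups contains `ℤ` and is closed under
groups that embed, finite products, free products, overgroups of finite index and colimits of directed
systems with arbitrary structure maps.  `ExtClosed C` (`Pool.Agent.Q152.WP.Perm`): if `G` maps onto a
group `Q` of `C`, and the kernel and the preimages of all infinite cyclic subgroups of `Q` are in `C`,
then `G` is in `C`.  All these properties are known for the class of the groups which satisfy the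
K-theoretic Farrell–Jones conjecture with coefficients in additive categories and finite wreath
products; for its torsion-free members `G` the groups `Wh(G)`, the reduced `K₀(ℤG)` and `K_n(ℤG)`,
`n < 0`, vanish.

`EqG w c` is the quotient of the free product of `G` and `B` by the relation `w = c`, where `w` is in `G`
and `c` is in `B`.  `Det C B c`: some homomorphism `f` from `B` to a group `M` maps `c` to a central
element of infinite order, and `M / ⟨f(c)⟩` is in `C`.

Proof.  The amalgamated product of `G` and `M` over `w = f(c)` is in `C` by the theorem
`MP_c052b4_al/AmalgamsOverNormal` of this team, since the amalgamated subgroup is central in `M`.  The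
amalgamated product of `G` and `B` maps to it, and the map is injective on `G`, so it is in `C` by
`MP_2a0850_gt/EdgeInjective`.  In a free group every nontrivial element is mapped to a
central element of infinite order of some nilpotent group (of integral unitriangular matrices modulo a
term of its lower central series).
-/

set_option autoImplicit false

namespace Pool.Agent.Results.MP_16fe43_al.OneSidedAmalgams

open Monoid Pool.Agent.Y462.SS Pool.Agent.Q152.WP Pool.Agent.Q105.FJ Pool.Agent.Q143.CY

/-- the group is torsion-free -/
def TorsionFree (G : Type) [Group G] : Prop := ∀ u : G, IsOfFinOrder u → u = 1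

/-- Amalgamated products over infinite cyclic groups with a condition on one of the factors. -/
def Amalgams (C : ∀ (G : Type) [Group G], Prop) : Prop :=
  ∀ (G B : Type) [Group G] [Group B] (w : G) (c : B), ¬ IsOfFinOrder w → Det C B c → C G → C B →
    C (EqG w c) ∧ Function.Injective (jG w c) ∧ Function.Injective (jB w c) ∧
      (TorsionFree G → TorsionFree B → TorsionFree (EqG w c))

/-- Adjoining to `G` a family `x` of elements with `v(x) = w`, for a nontrivial word `v` and an element
`w` of `G` of infinite order. -/
def Equations (C : ∀ (G : Type) [Group G], Prop) : Prop :=
  ∀ (G α : Type) [Group G] (w : G) (v : FreeGroup α), ¬ IsOfFinOrder w → v ≠ 1 → C G →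
    C (EqG w v) ∧ Function.Injective (jG w v) ∧ jG w v w = jB w v v ∧
      (TorsionFree G → TorsionFree (EqG w v))

/-- **Adjoining solutions of equations.** -/
theorem result (C : ∀ (G : Type) [Group G], Prop) (hC : Closed C) (hE : ExtClosed C) :
    Amalgams C ∧ Equations C := by
  refine ⟨fun G B _ _ w c hw hc hG hB => ⟨eqG_mem hC hE hw hG hB hc, jG_injective hw (det_inf hc),
    jB_injective hw (det_inf hc), fun h h' => eqG_tf hw (det_inf hc) h h'⟩,
    fun G α _ w v hw hv hG => ?_⟩
  have hc := det_free hC hE v hv
  exact ⟨eqG_mem hC hE hw hG (Pool.Agent.Y179.SS.t_free C hC α) hc, jG_injective hw (det_inf hc), j_eq w v,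
    fun h => eqG_tf hw (det_inf hc) h (TF.free α)⟩

end Pool.Agent.Results.MP_16fe43_al.OneSidedAmalgams
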